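import Mathlib

namespace Pool.Agent.H.MP_d5a689_co

open Finset Real

def Hit (α s l : ℝ) (c : ℕ) : Prop := ∃ n : ℤ, s ≤ c * α - n ∧ c * α - n < s + l

open Classical in
theorem block {α : ℝ} (r : ℚ) (h : |α - r| ≤ 1 / (r.den : ℝ) ^ 2) (s l : ℝ) (l0 : 0 ≤ l) (b : ℕ) :
    (((range r.den).filter fun j => Hit α s l (b + j)).card : ℝ) ≤ r.den * l + 4 := by
  have q0 : (0 : ℝ) < r.den := by exact_mod_cast r.den_pos
  let z : ℕ → ℤ := fun j => if h : Hit α s l (b + j) then j * r.num - r.den * h.choose else 0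
  set u := (r.den : ℝ) * (s - b * α) - 1
  have c := card_le_card_of_injOn (s := (range r.den).filter fun j => Hit α s l (b + j))
    (t := Icc ⌈u⌉ ⌊u + r.den * l + 2⌋) z (fun j hj => ?_) (fun i hi j hj e => ?_)
  · have c : (_ : ℝ) ≤ _ := Nat.cast_le.2 c
    refine c.trans ?_
    rw [Int.card_Icc]
    have a := Int.floor_le (u + r.den * l + 2)
    have b := Int.le_ceil u
    have : 0 ≤ (r.den : ℝ) * l := by positivity
    rcases le_total 0 (⌊u + r.den * l + 2⌋ + 1 - ⌈u⌉) with x | x
    · rw [← Int.cast_natCast, Int.toNat_of_nonneg x]; push_cast; linarith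
    · rw [Int.toNat_of_nonpos x]; simp; linarith
  · obtain ⟨j1, j2⟩ := mem_filter.1 (mem_coe.1 hj)
    have j1 : (j : ℝ) ≤ r.den := by exact_mod_cast (mem_range.1 j1).le
    have ⟨a, b'⟩ := j2.choose_spec
    simp only [z, dif_pos j2, mem_coe, mem_Icc, Int.ceil_le, Int.le_floor]
    generalize j2.choose = n at *
    have e : (r.num : ℝ) = r.den * r := by rw [Rat.cast_def]; field_simp
    have k : |(j : ℝ) * r.den * (α - r)| ≤ 1 := by
      rw [abs_mul, abs_of_nonneg (by positivity)]
      calc (j : ℝ) * r.den * |α - r| ≤ r.den * r.den * (1 / (r.den : ℝ) ^ 2) := by gcongr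
        _ = 1 := by field_simp
    have := abs_le.1 k
    push_cast at *
    rw [e]
    constructor <;> nlinarith [mul_le_mul_of_nonneg_left a q0.le, mul_le_mul_of_nonneg_left b'.le q0.le]
  · obtain ⟨i1, i2⟩ := mem_filter.1 (mem_coe.1 hi)
    obtain ⟨j1, j2⟩ := mem_filter.1 (mem_coe.1 hj)
    simp only [z, dif_pos i2, dif_pos j2] at e
    have d : (r.den : ℤ) ∣ (i - j) * r.num := ⟨i2.choose - j2.choose, by linarith⟩
    have := Int.eq_zero_of_abs_lt_dvd
      ((Rat.isCoprime_num_den r).symm.dvd_of_dvd_mul_right d) (by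
        have := mem_range.1 i1
        have := mem_range.1 j1
        rw [abs_lt]; omega)
    omega

open Classical in
theorem eqd {α : ℝ} (hα : Irrational α) : ∃ K : ℝ, ∀ (N : ℕ) (s l : ℝ), 0 ≤ l → l ≤ 1 →
    (((range N).filter (Hit α s l)).card : ℝ) ≤ N * (l + 1 / 1000) + K := by
  obtain ⟨ε, e1, e0⟩ := ((hα.eventually_forall_le_dist_cast_rat_of_den_le 4000).filter_mono
    (nhdsWithin_le_nhds (s := Set.Ioi 0))).and self_mem_nhdsWithin |>.exists
  obtain ⟨n, hn⟩ := exists_nat_one_div_lt (show 0 < ε from e0)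
  obtain ⟨r, r1, r2⟩ := exists_rat_abs_sub_le_and_den_le α n.succ_pos
  have q1 : (1 : ℝ) ≤ r.den := by exact_mod_cast r.den_pos
  have r2' : (r.den : ℝ) ≤ n + 1 := by exact_mod_cast r2
  push_cast at r1
  have q : (4000 : ℝ) ≤ r.den := by
    by_contra x
    have := e1 r (by exact_mod_cast (not_le.1 x).le)
    rw [Real.dist_eq] at this
    have : 1 / ((n + 1 + 1 : ℝ) * r.den) ≤ 1 / (n + 1) := by
      apply one_div_le_one_div_of_le (by positivity); nlinarith
    linarith
  have h : |α - r| ≤ 1 / (r.den : ℝ) ^ 2 := r1.trans (by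
    apply one_div_le_one_div_of_le (by positivity); nlinarith)
  refine ⟨r.den + 4, fun N s l l0 l1 => ?_⟩
  have B : ∀ M : ℕ, (((range (r.den * M)).filter (Hit α s l)).card : ℝ) ≤ M * (r.den * l + 4) := by
    intro M
    induction M with
    | zero => simp
    | succ M ih =>
      rw [Nat.mul_succ, range_add, filter_union, filter_map]
      have := card_union_le ((range (r.den * M)).filter (Hit α s l))
        (((range r.den).filter (Hit α s l ∘ addLeftEmbedding (r.den * M))).map
          (addLeftEmbedding (r.den * M)))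
      rw [card_map] at this
      have b := block r h s l l0 (r.den * M)
      refine (Nat.cast_le.2 this).trans ?_
      push_cast
      rw [add_mul, one_mul]
      exact add_le_add ih b
  have c := card_le_card (filter_subset_filter (Hit α s l)
    (range_subset_range.2 (Nat.lt_mul_div_succ N r.den_pos).le))
  refine ((Nat.cast_le.2 c).trans (B _)).trans ?_
  have d : ((N / r.den : ℕ) : ℝ) * r.den ≤ N := by exact_mod_cast Nat.div_mul_le_self N r.den
  have : (0 : ℝ) ≤ (N / r.den : ℕ) := Nat.cast_nonneg _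
  push_cast
  nlinarith

theorem irr {p : ℕ} (hp : p.Prime) (h2 : p ≠ 2) : Irrational (log p / log 2) := by
  rintro ⟨r, hr⟩
  have l2 : 0 < log 2 := log_pos one_lt_two
  have lp : 0 < log p := log_pos (by exact_mod_cast hp.one_lt)
  have r0 : 0 < r := by exact_mod_cast hr ▸ div_pos lp l2
  have q0 : (0 : ℝ) < r.den := by exact_mod_cast r.den_pos
  rw [Rat.cast_def, div_eq_div_iff q0.ne' l2.ne', ← Int.toNat_of_nonneg (Rat.num_pos.2 r0).le,
    Int.cast_natCast, mul_comm (log p), ← log_pow, ← log_pow] at hr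
  have := log_injOn_pos (Set.mem_Ioi.2 (by positivity))
    (Set.mem_Ioi.2 (pow_pos (by exact_mod_cast hp.pos) _)) hr
  have e : 2 ^ r.num.toNat = p ^ r.den := by exact_mod_cast this
  exact h2 ((Nat.prime_dvd_prime_iff_eq hp Nat.prime_two).1
    (hp.dvd_of_dvd_pow (e ▸ dvd_pow_self p r.den_nz)))

theorem tail {y : ℕ} (hy : 2 ≤ y) (n : ℕ) :
    ∑ p ∈ (Ioc y n).filter Nat.Prime, 1 / (p * log p) ≤ log 4 * (1 / log y ^ 2 + 1 / log y) := by
  have th : ∀ n : ℕ, ∑ p ∈ (Ioc 0 n).filter Nat.Prime, log p ≤ log 4 * n := fun n => by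
    simpa [Chebyshev.theta] using Chebyshev.theta_le_log4_mul_x (Nat.cast_nonneg n)
  have l4 : 0 < log 4 := log_pos (by norm_num)
  have lg : ∀ n : ℕ, 2 ≤ n → 0 < log n := fun n h => log_pos (by exact_mod_cast h)
  have K : ∀ n, y ≤ n → ∑ p ∈ (Ioc y n).filter Nat.Prime, 1 / (p * log p) +
      (log 4 * n - ∑ p ∈ (Ioc 0 n).filter Nat.Prime, log p) * (1 / (n * log n ^ 2)) +
      log 4 * (1 / log n) ≤ log 4 * (1 / log y ^ 2 + 1 / log y) := by
    intro n hn
    induction n, hn using Nat.le_induction with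
    | base =>
      have := lg y hy
      have y0 : (0 : ℝ) < y := by positivity
      have a : 0 ≤ ∑ p ∈ (Ioc 0 y).filter Nat.Prime, log p :=
        sum_nonneg fun p _ => log_natCast_nonneg p
      have b : log 4 * y * (1 / (y * log y ^ 2)) = log 4 * (1 / log y ^ 2) := by field_simp
      have c : 0 ≤ 1 / (y * log y ^ 2) := by positivity
      simp only [Ioc_self, filter_empty, sum_empty]
      nlinarith [mul_nonneg a c]
    | succ n hn ih =>
      refine le_trans ?_ ih
      have a := lg n (hy.trans hn)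
      have n0 : (0 : ℝ) < n := by exact_mod_cast (by omega : 0 < n)
      have b : log n ≤ log (n + 1) := log_le_log n0 (by linarith)
      have g : 1 / ((n + 1) * log (n + 1) ^ 2) ≤ 1 / (n * log n ^ 2) := by gcongr; linarith
      have G : 1 / ((n + 1) * log (n + 1) ^ 2) + 1 / log (n + 1) ≤ 1 / log n := by
        have c := one_sub_inv_le_log_of_pos (x := (n + 1) / n) (by positivity)
        rw [log_div (by positivity) n0.ne', show 1 - (((n : ℝ) + 1) / n)⁻¹ = 1 / (n + 1) by
          field_simp; ring] at c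
        have d : 0 < log (n + 1) := by linarith
        rw [← le_sub_iff_add_le, div_sub_div _ _ a.ne' d.ne', ← one_div_mul_one_div,
          mul_one_div, one_mul, mul_one]
        gcongr
        nlinarith
      have t := mul_le_mul_of_nonneg_left g (sub_nonneg.2 (th n))
      have u := mul_le_mul_of_nonneg_left G l4.le
      rw [← insert_Ioc_right_eq_Ioc_add_one hn, ← insert_Ioc_right_eq_Ioc_add_one n.zero_le,
        filter_insert, filter_insert]
      split_ifs
      · rw [sum_insert (by simp), sum_insert (by simp)]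
        push_cast
        have d : 0 < log (n + 1) := by linarith
        have : 1 / ((n + 1) * log (n + 1)) = log (n + 1) * (1 / ((n + 1) * log (n + 1) ^ 2)) := by
          field_simp
        nlinarith
      · push_cast; nlinarith
  rcases le_total y n with h | h
  · have := K n h
    have a := lg n (hy.trans h)
    have b := mul_nonneg (sub_nonneg.2 (th n)) (by positivity : 0 ≤ 1 / (n * log n ^ 2))
    have : 0 ≤ log 4 * (1 / log n) := by positivity
    linarith
  · have := lg y hy
    rw [Ioc_eq_empty (by omega)]; simp only [filter_empty, sum_empty]; positivity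

end Pool.Agent.H.MP_d5a689_co
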