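import Pool.Agent.H.MP_d5a689_co.A

namespace Pool.Agent.H.MP_d5a689_co

open Finset Real MeasureTheory Filter

theorem one_add_le {x : ℝ} (h0 : 0 ≤ x) (h1 : x ≤ 1) : 1 + x ≤ exp (x - 3 / 10 * x ^ 2) := by
  have := sum_le_exp_of_nonneg (x := x - 3 / 10 * x ^ 2) (by nlinarith) 4
  simp only [sum_range_succ, sum_range_zero, Nat.factorial] at this
  refine le_trans ?_ this
  have a : x ^ 2 ≤ x := by nlinarith
  have b : 3 * x - 2 ≤ x ^ 3 := by nlinarith [mul_nonneg (sq_nonneg (x - 1)) (by linarith : 0 ≤ x + 2)]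
  have c : x ^ 4 ≤ x ^ 3 := pow_le_pow_of_le_one h0 h1 (by norm_num)
  have d : 0 ≤ x ^ 2 * (1 / 5 - 2 / 15 * x - 21 / 200 * x ^ 2 + 9 / 200 * x ^ 3 - 9 / 2000 * x ^ 4) :=
    mul_nonneg (sq_nonneg x) (by nlinarith [pow_nonneg h0 3])
  push_cast
  nlinarith

def e (p : ℕ) : ℚ := 101 / (100 * p) - 3 / 10 * (101 / (100 * p)) ^ 2

theorem e_spec {p : ℕ} (hp : 2 ≤ p) : (0 : ℝ) < e p ∧ (e p : ℝ) ≤ 101 / 100 * (1 / p) ∧
    (e p : ℝ) ≤ 101 / 200 ∧ 1 + 101 / (100 * p : ℝ) ≤ exp (e p) := by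
  have p2 : (2 : ℝ) ≤ p := by exact_mod_cast hp
  have a : (0 : ℝ) < 101 / (100 * p) := by positivity
  have b : (101 : ℝ) / (100 * p) ≤ 101 / 200 := by gcongr; linarith
  have c : (101 : ℝ) / (100 * p) = 101 / 100 * (1 / p) := by field_simp
  simp only [e]
  push_cast
  exact ⟨by nlinarith, by nlinarith, by nlinarith, one_add_le a.le (by linarith)⟩

theorem fin : ∑ p ∈ (Ioc 2 1024).filter fun p => Nat.gcd p (min (p - 1) 31).factorial = 1,
    e p * 50 / Nat.log 2 (p ^ 50) ≤ 5102 / 10000 := by decide +kernel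

theorem sumS (n : ℕ) : ∑ p ∈ (Ioc 2 n).filter Nat.Prime, (e p : ℝ) / log p ≤ 97 / 100 := by
  have l2 := log_two_gt_d9
  have nn : ∀ p, 2 < p → 0 ≤ (e p : ℝ) / log p := fun p h =>
    div_nonneg (e_spec h.le).1.le (log_natCast_nonneg p)
  have s : (Ioc 2 n).filter Nat.Prime ⊆
      (Ioc 2 1024).filter Nat.Prime ∪ (Ioc 1024 n).filter Nat.Prime := fun p hp => by
    simp only [mem_union, mem_filter, mem_Ioc] at hp ⊢
    by_cases h : p ≤ 1024
    · exact .inl ⟨⟨hp.1.1, h⟩, hp.2⟩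
    · exact .inr ⟨⟨by omega, hp.1.2⟩, hp.2⟩
  refine (sum_le_sum_of_subset_of_nonneg s fun p hp _ => nn p (by
    simp only [mem_union, mem_filter, mem_Ioc] at hp; omega)).trans ?_
  rw [sum_union (disjoint_left.2 fun p a b => by simp only [mem_filter, mem_Ioc] at a b; omega)]
  have A : ∑ p ∈ (Ioc 2 1024).filter Nat.Prime, (e p : ℝ) / log p ≤ 5102 / 10000 / log 2 := by
    have f : ((_ : ℚ) : ℝ) ≤ (_ : ℚ) := Rat.cast_le.2 fin
    push_cast at f
    refine le_trans ?_ (div_le_div_of_nonneg_right f (by linarith))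
    rw [sum_div]
    refine (sum_le_sum fun p hp => ?_).trans (sum_le_sum_of_subset_of_nonneg (fun p hp => ?_)
      fun p hp _ => ?_)
    · have h := (mem_Ioc.1 (mem_filter.1 hp).1).1
      have a : 2 ^ Nat.log 2 (p ^ 50) ≤ p ^ 50 := Nat.pow_log_le_self 2 (by positivity)
      have b : 0 < Nat.log 2 (p ^ 50) :=
        Nat.log_pos one_lt_two (h.le.trans (Nat.le_self_pow (by norm_num) p))
      have c := log_le_log (by positivity) (show ((2 : ℝ) ^ Nat.log 2 (p ^ 50)) ≤ p ^ 50 by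
        exact_mod_cast a)
      rw [log_pow, log_pow] at c
      have d : (0 : ℝ) < Nat.log 2 (p ^ 50) := by exact_mod_cast b
      have lp : 0 < log p := log_pos (by exact_mod_cast (by omega : 1 < p))
      rw [div_div, div_le_div_iff₀ lp (by positivity), mul_assoc]
      exact mul_le_mul_of_nonneg_left (by exact_mod_cast c) (e_spec h.le).1.le
    · rw [mem_filter] at hp ⊢
      refine ⟨hp.1, hp.2.coprime_iff_not_dvd.2 fun d => ?_⟩
      have := hp.2.dvd_factorial.1 d
      have := hp.2.two_le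
      omega
    · have := (e_spec (mem_Ioc.1 (mem_filter.1 hp).1).1.le).1
      positivity
  have B : ∑ p ∈ (Ioc 1024 n).filter Nat.Prime, (e p : ℝ) / log p ≤
      101 / 100 * (2 / 100 / log 2 + 2 / 10) := by
    have t := tail (by norm_num : 2 ≤ 1024) n
    rw [show ((1024 : ℕ) : ℝ) = 2 ^ 10 by norm_num, show (4 : ℝ) = 2 ^ 2 by norm_num, log_pow,
      log_pow] at t
    refine le_trans ?_ (mul_le_mul_of_nonneg_left (t.trans_eq (by field_simp; ring)) (by norm_num))
    rw [mul_sum]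
    refine sum_le_sum fun p hp => ?_
    rw [← one_div_mul_one_div, ← mul_assoc, mul_one_div]
    exact div_le_div_of_nonneg_right (e_spec (mem_filter.1 hp).2.two_le).2.1 (log_natCast_nonneg p)
  have a : 5102 / 10000 / log 2 ≤ 5102 / 10000 / 0.6931 := by gcongr; linarith
  have b : 2 / 100 / log 2 ≤ 2 / 100 / 0.6931 := by gcongr; linarith
  norm_num at a b A B ⊢
  linarith

theorem cover {ι : Type*} (s : Finset ι) (a : ι → ℝ) {h : ℝ} (h0 : 0 ≤ h) {E : Set ℝ}
    (hE : ∀ t ∈ E, ∃ i ∈ s, a i ≤ t ∧ t < a i + h) {B : ℝ} (hB : s.card * h ≤ B) :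
    volume E ≤ ENNReal.ofReal B := by
  refine (measure_mono (t := ⋃ i ∈ s, Set.Ico (a i) (a i + h)) fun t ht => ?_).trans
    ((measure_biUnion_finset_le _ _).trans ?_)
  · obtain ⟨i, x, y⟩ := hE t ht
    exact Set.mem_biUnion x y
  · simp only [Real.volume_Ico, add_sub_cancel_left]
    rw [← ENNReal.ofReal_sum_of_nonneg fun _ _ => h0, sum_const, nsmul_eq_mul]
    exact ENNReal.ofReal_le_ofReal hB

def E (l d A : ℝ) : Set ℝ :=
  {t | t < A ∧ 3 / 4 ≤ Int.fract t ∧ ∃ c : ℕ, 1 ≤ c ∧ c * l ≤ t ∧ t < c * l + d}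

theorem gen {l d A : ℝ} (l0 : 0 < l) (d0 : 0 ≤ d) (A0 : 0 ≤ A) :
    volume (E l d A) ≤ ENNReal.ofReal (A / l * d) := by
  refine cover (Ico 1 ⌈A / l⌉₊) (fun c => c * l) d0 (by
    rintro t ⟨a, _, c, x, y, z⟩
    exact ⟨c, mem_Ico.2 ⟨x, Nat.lt_ceil.2 ((lt_div_iff₀ l0).2 (y.trans_lt a))⟩, y, z⟩)
    (mul_le_mul_of_nonneg_right ?_ d0)
  have : 0 ≤ A / l := by positivity
  have := Nat.ceil_lt_add_one this
  rw [Nat.card_Ico]
  rcases Nat.eq_zero_or_pos ⌈A / l⌉₊ with h | h
  · simpa [h]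
  · rw [Nat.cast_sub h]; push_cast; linarith

open Classical in
theorem equi {l d : ℝ} (hl : Irrational l) (l0 : 0 < l) (d0 : 0 < d) (d1 : d ≤ 1) :
    ∀ᶠ A : ℕ in atTop, volume (E l d A) ≤ ENNReal.ofReal (A / l * d * (253 / 1000)) := by
  obtain ⟨K, hK⟩ := eqd hl
  filter_upwards [tendsto_natCast_atTop_atTop.eventually_ge_atTop ((1 + K) * 1000 * l),
    eventually_ge_atTop 0] with A hA _
  refine cover ((range 1000).sigma fun i =>
      (range ⌈A / l⌉₊).filter (Hit l (3 / 4 - d / 1000 - i * (d / 1000)) (1 / 4 + d / 1000)))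
    (fun x => x.2 * l + x.1 * (d / 1000)) (h := d / 1000) (by positivity)
    ?_ ?_
  · rintro t ⟨a, b, c, _, y, z⟩
    have h0 : 0 < d / 1000 := by positivity
    have u : 0 ≤ (t - c * l) / (d / 1000) := div_nonneg (by linarith) h0.le
    have u1 := (le_div_iff₀ h0).1 (Nat.floor_le u)
    have u2 := (div_lt_iff₀ h0).1 (Nat.lt_floor_add_one ((t - c * l) / (d / 1000)))
    have v := Int.fract_lt_one t
    have i1 : ⌊(t - c * l) / (d / 1000)⌋₊ < 1000 :=
      (Nat.floor_lt u).2 ((div_lt_iff₀ h0).2 (by push_cast; linarith))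
    generalize ⌊(t - c * l) / (d / 1000)⌋₊ = i at *
    rw [Int.fract] at b v
    refine ⟨⟨i, c⟩, ?_, by linarith, by linarith⟩
    rw [mem_sigma, mem_filter, mem_range, mem_range]
    exact ⟨i1, Nat.lt_ceil.2 ((lt_div_iff₀ l0).2 (y.trans_lt a)), ⌊t⌋, by linarith, by linarith⟩
  · have x : 0 ≤ A / l := by positivity
    have y := (Nat.ceil_lt_add_one x).le
    have z : (1 + K) * 1000 ≤ A / l := (le_div_iff₀ l0).2 hA
    rw [card_sigma, Nat.cast_sum]
    have := sum_le_card_nsmul (range 1000) (fun i : ℕ => (((range ⌈A / l⌉₊).filter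
      (Hit l (3 / 4 - d / 1000 - i * (d / 1000)) (1 / 4 + d / 1000))).card : ℝ))
      (A / l * (253 / 1000)) fun i _ => (hK _ _ _ (by positivity) (by linarith)).trans (by
        have : (⌈A / l⌉₊ : ℝ) * (1 / 4 + d / 1000 + 1 / 1000) ≤ (A / l + 1) * (252 / 1000) := by
          gcongr; linarith
        linarith)
    rw [card_range, nsmul_eq_mul] at this
    refine (mul_le_mul_of_nonneg_right this (by positivity)).trans_eq ?_
    push_cast; ring

theorem low (T n : ℕ) : ENNReal.ofReal (n / 4) ≤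
    volume {t : ℝ | T ≤ t ∧ t < T + n ∧ 3 / 4 ≤ Int.fract t} := by
  induction n with
  | zero => simp
  | succ n ih =>
    refine le_trans ?_ (measure_mono (s := {t : ℝ | T ≤ t ∧ t < T + n ∧ 3 / 4 ≤ Int.fract t} ∪
      Set.Ico (T + n + 3 / 4 : ℝ) (T + n + 1)) ?_)
    · rw [measure_union (Set.disjoint_left.2 fun t a b => by linarith [a.2.1, b.1])
        measurableSet_Ico, Real.volume_Ico]
      refine le_trans ?_ (add_le_add_left ih _)
      rw [← ENNReal.ofReal_add (by positivity) (by linarith)]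
      exact ENNReal.ofReal_le_ofReal (by push_cast; linarith)
    · have : (0 : ℝ) ≤ n := Nat.cast_nonneg n
      rintro t (⟨a, b, c⟩ | ⟨a, b⟩)
      · exact ⟨a, by push_cast; linarith, c⟩
      · refine ⟨by linarith, by push_cast; linarith, ?_⟩
        rw [Int.fract, (Int.floor_eq_iff (z := T + n)).2 ⟨by push_cast; linarith,
          by push_cast; linarith⟩]
        push_cast; linarith

theorem good (T : ℕ) : ∃ t : ℝ, T ≤ t ∧ 3 / 4 ≤ Int.fract t ∧ ∀ p : ℕ, p.Prime → p ≠ 2 →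
    ∀ c : ℕ, 1 ≤ c → c * (log p / log 2) ≤ t → c * (log p / log 2) + e p / log 2 ≤ t := by
  by_contra hc
  push Not at hc
  have l2 := log_two_gt_d9
  have l2' := log_two_lt_d9
  obtain ⟨Y, Y1, Y2⟩ := (((tendsto_log_atTop.comp tendsto_natCast_atTop_atTop).eventually_ge_atTop
    500).and (eventually_ge_atTop 2)).exists
  have lp : ∀ p : ℕ, p.Prime → 0 < log p := fun p h => log_pos (by exact_mod_cast h.one_lt)
  obtain ⟨A, A1, A2⟩ := (((eventually_all_finset ((Ioc 2 Y).filter Nat.Prime)).2 fun p hp => by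
    have h := mem_filter.1 hp
    have x := e_spec h.2.two_le
    exact equi (d := e p / log 2) (irr h.2 (by have := mem_Ioc.1 h.1; omega))
      (div_pos (lp p h.2) (by linarith)) (div_pos x.1 (by linarith))
      ((div_le_one (by linarith)).2 (by linarith [x.2.2.1]))).and
    (eventually_ge_atTop (200 * T + 1))).exists
  have A0 : (0 : ℝ) ≤ A := Nat.cast_nonneg A
  have k1 := (low T (A - T)).trans ((measure_mono (t := ⋃ p ∈ (Ioc 2 (2 ^ A)).filter Nat.Prime,
    E (log p / log 2) (e p / log 2) A) fun t ht => ?_).trans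
    ((measure_biUnion_finset_le _ _).trans (sum_le_sum (g := fun p : ℕ => ENNReal.ofReal
      (A * (253 / 1000) * (e p / log p) + if Y < p then A * (101 / 100) * (1 / (p * log p)) else 0))
      fun p hp => ?_)))
  · rw [← ENNReal.ofReal_sum_of_nonneg fun p hp => by
      have := (e_spec (mem_filter.1 hp).2.two_le).1
      have := lp p (mem_filter.1 hp).2
      positivity, sum_add_distrib, ← mul_sum, ← sum_filter, ← mul_sum] at k1
    have s1 := sumS (2 ^ A)
    have s2 := tail Y2 (2 ^ A)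
    rw [show ((Ioc 2 (2 ^ A)).filter Nat.Prime).filter (Y < ·) = (Ioc Y (2 ^ A)).filter Nat.Prime by
      ext p; simp only [mem_filter, mem_Ioc]; constructor <;> intro h <;> simp [h]; omega] at k1
    have Y3 : (500 : ℝ) ≤ log Y := Y1
    have s3 : log 4 * (1 / log Y ^ 2 + 1 / log Y) ≤ 14 / 10 * (1 / 500 ^ 2 + 1 / 500) := by
      gcongr
      rw [show (4 : ℝ) = 2 ^ 2 by norm_num, log_pow]; push_cast; linarith
    have k2 := (ENNReal.ofReal_le_ofReal_iff (by positivity)).1 (k1.trans (ENNReal.ofReal_le_ofReal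
      (add_le_add (mul_le_mul_of_nonneg_left s1 (by positivity))
        (mul_le_mul_of_nonneg_left (s2.trans s3) (by positivity)))))
    rw [Nat.cast_sub (by omega)] at k2
    have : (200 * T + 1 : ℝ) ≤ A := by exact_mod_cast A2
    linarith
  · obtain ⟨a, b, c⟩ := ht
    rw [Nat.cast_sub (by omega), add_sub_cancel] at b
    obtain ⟨p, pp, p2, n, n1, x, y⟩ := hc t a c
    refine Set.mem_biUnion (x := p) (mem_filter.2 ⟨mem_Ioc.2 ⟨by have := pp.two_le; omega, ?_⟩, pp⟩)
      ⟨b, c, n, n1, x, y⟩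
    have n1' : (1 : ℝ) ≤ n := by exact_mod_cast n1
    have q := div_pos (lp p pp) (by linarith : 0 < log 2)
    have : log p / log 2 ≤ A := by nlinarith
    rw [div_le_iff₀ (by linarith), ← log_pow,
      log_le_log_iff (by exact_mod_cast pp.pos) (by positivity)] at this
    exact_mod_cast this
  · have h := mem_filter.1 hp
    have x := e_spec h.2.two_le
    have y := lp p h.2
    have z : A / (log p / log 2) * (e p / log 2) = A * (e p / log p) := by field_simp
    split_ifs with c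
    · refine (gen (div_pos y (by linarith)) (div_pos x.1 (by linarith)).le A0).trans
        (ENNReal.ofReal_le_ofReal ?_)
      have u := div_le_div_of_nonneg_right x.2.1 y.le
      have v := (div_pos x.1 y).le
      rw [z, ← one_div_mul_one_div, mul_one_div (1 / (p : ℝ)), mul_assoc (A : ℝ) (101 / 100),
        ← mul_div_assoc (101 / 100 : ℝ)]
      nlinarith [mul_le_mul_of_nonneg_left u A0, mul_nonneg A0 v]
    · refine (A1 p (mem_filter.2 ⟨mem_Ioc.2 ⟨(mem_Ioc.1 h.1).1, not_lt.1 c⟩, h.2⟩)).trans_eq ?_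
      rw [z]; congr 1; ring

end Pool.Agent.H.MP_d5a689_co
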