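import Pool.Agent.H.MP_d5a689_co.B
import Pool.Agent.H.MP_537c9d_co.G

namespace Pool.Agent.H.MP_d5a689_co

open Real Pool.Agent.H.MP_537c9d_co

theorem goodk (K : ℕ) : ∃ k, K ≤ k ∧ 20 ≤ k ∧ k % 12 = 8 ∧
    ∀ p c : ℕ, p.Prime → 1 ≤ c → p ^ c ≤ k → p ^ c + p ^ (c - 1) ≤ k := by
  obtain ⟨t, t1, t2, h⟩ := good (K + 22)
  have l2 := log_two_gt_d9
  have x1 : 2 ^ (K + 22) ≤ ⌊exp (t * log 2)⌋₊ := Nat.le_floor (by
    push_cast
    rw [← exp_log (by positivity : (0 : ℝ) < 2 ^ (K + 22)), log_pow]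
    exact exp_le_exp.2 (by gcongr))
  have x2 := Nat.floor_le (exp_pos (t * log 2)).le
  have x3 := Nat.lt_floor_add_one (exp (t * log 2))
  have x4 := Nat.lt_two_pow_self (n := K)
  rw [pow_add] at x1
  generalize ⌊exp (t * log 2)⌋₊ = m at *
  obtain ⟨k, k1, k2, k3⟩ : ∃ k, k ≤ m ∧ m + 1 ≤ k + 12 ∧ k % 12 = 8 :=
    ⟨12 * ((m - 8) / 12) + 8, by omega, by omega, by omega⟩
  refine ⟨k, by omega, by omega, k3, fun p c hp c1 a => not_lt.1 fun b => ?_⟩
  obtain ⟨c, rfl⟩ := Nat.exists_eq_add_of_le' c1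
  rw [Nat.add_sub_cancel] at b
  rcases Nat.eq_zero_or_pos c with rfl | c0
  · have := hp.eq_two_or_odd
    simp at a b; omega
  have q1 : p ≤ p ^ c := Nat.le_self_pow c0.ne' p
  have q2 : 1200 ≤ p ^ c := by
    rw [pow_succ] at b
    by_contra z
    have : p ^ c * p ≤ 1200 * 1200 := Nat.mul_le_mul (by omega) (by omega)
    omega
  have p0 : (0 : ℝ) < p := by exact_mod_cast hp.pos
  have u1 : (p : ℝ) ^ (c + 1) ≤ exp (t * log 2) := le_trans (by exact_mod_cast a.trans k1) x2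
  have u2 : exp (t * log 2) < p ^ (c + 1) * (1 + 101 / (100 * p : ℝ)) := by
    have v : (m + 1 : ℝ) ≤ p ^ (c + 1) + p ^ c + 12 := by exact_mod_cast (by omega)
    have w : (1200 : ℝ) ≤ p ^ c := by exact_mod_cast q2
    have : (p : ℝ) ^ (c + 1) * (1 + 101 / (100 * p)) = p ^ (c + 1) + 101 / 100 * p ^ c := by
      field_simp; ring
    linarith
  have u3 : ((c + 1 : ℕ) : ℝ) * log p ≤ t * log 2 := by
    rw [← log_pow]; exact (log_le_iff_le_exp (by positivity)).2 u1
  have u4 : ∀ y, ((c + 1 : ℕ) : ℝ) * log p + y ≤ t * log 2 → exp y < 1 + 101 / (100 * p : ℝ) :=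
    fun y z => by
      have := (exp_le_exp.2 z).trans_lt u2
      rw [exp_add, ← log_pow, exp_log (by positivity)] at this
      exact lt_of_mul_lt_mul_left this (by positivity)
  by_cases p2 : p = 2
  · subst p2
    have v : ((c + 1 : ℕ) : ℝ) ≤ t := le_of_mul_le_mul_right u3 (by push_cast; linarith)
    have w : (((c + 1 : ℕ) : ℤ) : ℝ) ≤ (⌊t⌋ : ℝ) := Int.cast_le.2 (Int.le_floor.2 (by exact_mod_cast v))
    rw [Int.fract] at t2
    have := u4 (3 / 4 * log 2) (by push_cast at *; nlinarith)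
    have := add_one_le_exp (3 / 4 * log 2)
    norm_num at *
    linarith
  · have := h p hp p2 (c + 1) c1 (by rwa [← mul_div_assoc, div_le_iff₀ (by linarith)])
    rw [← mul_div_assoc, ← add_div, div_le_iff₀ (by linarith)] at this
    exact (u4 _ this).not_ge (e_spec hp.two_le).2.2.2

theorem two {k : ℕ} (k1 : 20 ≤ k) (k2 : k % 12 = 8)
    (h : ∀ p c : ℕ, p.Prime → 1 ≤ c → p ^ c ≤ k → p ^ c + p ^ (c - 1) ≤ k) :
    {s | IsWCS k s}.ncard = 2 := by
  refine Set.ncard_eq_two.2 ⟨st1 k, (st1 k).reverse, fun e => ?_, Set.ext fun s => ⟨fun w => ?_, ?_⟩⟩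
  · have := congrArg (·.getD 0 0) e
    rw [List.getD_eq_getElem _ _ (by simp [st1]; omega),
      List.getD_eq_getElem _ _ (by simp [st1]; omega)] at this
    simp [st1] at this
    omega
  · obtain ⟨n, s₀, a, b⟩ := IsWCS.dv w
    obtain ⟨rfl, rfl⟩ : n = 1 ∧ s₀ = st1 k := by
      rcases a with _ | a | ⟨p, a, -, e⟩ | ⟨p, -, -, -, e⟩ | ⟨p, a, -, -, e⟩
      · exact ⟨rfl, rfl⟩
      all_goals first | omega | (have := pm a (by omega); omega)
    clear w
    induction b with
    | start => exact .inl rfl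
    | twin _ _ e => omega
    | pps p c s hp c1 u v => exact absurd (h p c hp c1 u) v.not_ge
    | rev s _ ih => rcases ih with rfl | rfl <;> simp
  · rintro (rfl | rfl)
    · refine ⟨.refl _, fun m i j a b => ?_⟩
      have e : ∀ i : Fin (st1 k).length, (((st1 k)[i] : ℕ) : ℤ) = 1 + (i : ℕ) := fun i => by
        rw [Fin.getElem_fin]; simp [st1]
      rw [← Int.natCast_dvd_natCast, e] at a ⊢
      have := a.sub b
      rwa [show ∀ x y : ℤ, 1 + x - (x - y) = 1 + y from fun _ _ => by ring] at this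
    · refine ⟨List.reverse_perm _, fun m i j a b => ?_⟩
      have e : ∀ i : Fin (st1 k).reverse.length,
          (((st1 k).reverse[i] : ℕ) : ℤ) = k - (i : ℕ) := fun i => by
        have : (i : ℕ) < k := by simpa [st1] using i.2
        rw [Fin.getElem_fin, List.getElem_reverse]
        simp only [st1, List.getElem_range', one_mul, List.length_range']
        omega
      rw [← Int.natCast_dvd_natCast, e] at a ⊢
      have := a.add b
      rwa [sub_add_sub_cancel] at this

end Pool.Agent.H.MP_d5a689_co
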